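import Mathlib
import Pool.Agent.Lib.helper23.BLI
import Pool.Agent.Lib.helper23.BLDef3

set_option autoImplicit false

namespace Pool.Agent.Results.MP_9b1016_an.Q1

open Pool.Agent.Lib.helper23.BL

theorem result (A : Type) [BanachLattice A] (h : Semiprojective A) : LOpen A := by
  intro B _ _ I
  refine ⟨Set.univ, isOpen_univ, fun φ h1 h2 => iff_of_true (fun ε hε => ?_) trivial⟩
  haveI : TopologicalSpace.SeparableSpace (Quo I) :=
    (Quo.mk_surj I).denseRange.separableSpace (Quo.mk I).continuous
  obtain ⟨S, s1, s2, s3⟩ := h.lift φ h1 h2 I (ContinuousLinearMap.id ℝ _) isHom_id hε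
  exact ⟨S, s1, s2, s3.trans (mul_le_of_le_one_right (by positivity)
    ContinuousLinearMap.norm_id_le)⟩

end Pool.Agent.Results.MP_9b1016_an.Q1
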