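import Mathlib
import Pool.Agent.Lib.helper23.BLB
import Pool.Agent.Lib.helper23.BLDef3

set_option autoImplicit false

namespace Pool.Agent.Results.MP_9b1016_an.Q2

open Pool.Agent.Lib.helper23.BL

theorem result (A : Type) [BanachLattice A] (h : LOpen A) : Semiprojective A := by
  intro B _ _ I J hJ _ _ φ h1 h2
  obtain ⟨U, hU, hL⟩ := h B J
  have k0 : (0 : ℝ) ∈ {t : ℝ | Liftable J (t • φ)} := fun ε hε =>
    ⟨0, isHom_zero, by simp, by rw [norm_zero]; positivity⟩
  have key : Set.Icc (0 : ℝ) 1 ⊆ {t : ℝ | Liftable J (t • φ)} := by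
    refine IsClosed.Icc_subset_of_forall_mem_nhdsWithin (isClosed_of_closure_subset fun t ht => ?_)
      k0 fun t ht => ?_
    · have t1 : t ∈ Set.Icc (0 : ℝ) 1 := closure_minimal Set.inter_subset_right isClosed_Icc ht
      refine ⟨?_, t1⟩
      rcases t1.1.eq_or_lt with rfl | t0
      · exact k0
      intro ε hε
      have e0 : 0 < min 1 (ε / 3) := lt_min one_pos (by positivity)
      obtain ⟨s, hs, s1, -⟩ := mem_closure_iff.1 ht (Set.Ioi (t / (1 + min 1 (ε / 3)))) isOpen_Ioi
        (div_lt_self t0 (by linarith))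
      have s0 : 0 < s := lt_trans (by positivity) hs
      obtain ⟨S, a1, a2, a3⟩ := s1 _ e0
      refine ⟨(t / s) • S, a1.smul (by positivity), fun a => ?_, ?_⟩
      · simp only [ContinuousLinearMap.smul_apply, map_smul, a2, smul_smul,
          div_mul_cancel₀ _ s0.ne']
      · have b1 : t / s ≤ 1 + min 1 (ε / 3) := by
          rw [div_le_iff₀' s0, ← div_le_iff₀ (by positivity)]
          exact le_of_lt hs
        rw [norm_smul, Real.norm_of_nonneg (by positivity)]
        refine (mul_le_mul b1 a3 (norm_nonneg _) (by positivity)).trans ?_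
        nlinarith [min_le_left 1 (ε / 3), min_le_right 1 (ε / 3)]
    · have k : ∀ s ∈ Set.Icc (0 : ℝ) 1, Liftable J (s • φ) ↔ (fun a => s • φ a) ∈ U := fun s hs =>
        hL _ (h1.smul hs.1) (by
          rw [norm_smul, Real.norm_of_nonneg hs.1]
          exact mul_le_one₀ hs.2 (norm_nonneg _) h2)
      have c : Continuous fun (s : ℝ) (a : A) => s • φ a := by fun_prop
      filter_upwards [nhdsWithin_le_nhds ((hU.preimage c).mem_nhds
        ((k t (Set.Ico_subset_Icc_self ht.2)).1 ht.1)), Ioo_mem_nhdsGT ht.2.2] with s h3 h4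
      exact (k s ⟨ht.2.1.trans h4.1.le, h4.2.le⟩).2 h3
  refine ⟨0, fun ε hε => ?_⟩
  obtain ⟨S, s1, s2, s3⟩ := key ⟨zero_le_one, le_rfl⟩ ε hε
  rw [one_smul] at s2
  refine ⟨(Quo.mk (I 0)).comp S, (mk_hom _).comp s1, ?_, s2⟩
  exact ContinuousLinearMap.opNorm_le_bound _ (by linarith) fun x => (norm_mk_le _ _).trans
    ((S.le_opNorm x).trans (mul_le_mul_of_nonneg_right s3 (norm_nonneg _)))

end Pool.Agent.Results.MP_9b1016_an.Q2
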